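import Pool.Agent.helper50.PHN.Spec

set_option autoImplicit false

namespace Pool.Agent.PHN

open Finset

theorem MSH_succ (T : ℕ) (f : ℤ → ℝ) (hf : ∀ x, f (x + T) = f x) (s : ℤ) :
    ∑ x ∈ range T, f ((x : ℤ) + (s + 1)) = ∑ x ∈ range T, f ((x : ℤ) + s) := by
  have h1 := Finset.sum_range_succ (fun x : ℕ => f ((x : ℤ) + s)) T
  have h2 := Finset.sum_range_succ' (fun x : ℕ => f ((x : ℤ) + s)) T
  have h3 : f ((T : ℤ) + s) = f (((0 : ℕ) : ℤ) + s) := by
    rw [add_comm, hf]; simp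
  have h4 : ∑ x ∈ range T, f ((x : ℤ) + (s + 1)) = ∑ x ∈ range T, f (((x + 1 : ℕ) : ℤ) + s) := by
    refine Finset.sum_congr rfl fun x _ => ?_
    congr 1
    push_cast
    ring
  rw [h4]
  linarith

theorem MSH : MSH_stmt := by
  intro T f s _ hf
  have key : ∑ x ∈ range T, f ((x : ℤ) + s) = ∑ x ∈ range T, f (x : ℤ) := by
    induction s using Int.induction_on with
    | zero => simp
    | succ i ih => rw [MSH_succ T f hf, ih]
    | pred i ih =>
      have h := MSH_succ T f hf (-(i : ℤ) - 1)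
      rw [sub_add_cancel] at h
      rw [← h, ih]
  unfold mu
  rw [key]

end Pool.Agent.PHN
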