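import Pool.Agent.helper50.PHN.Spec

set_option autoImplicit false

namespace Pool.Agent.PHN

open Finset

theorem PPW (hPPC : PPC_stmt) : PPW_stmt := by
  classical
  intro Y d T hY hd hT
  have h1 := hPPC T (fun v => 1 / (v : ℝ)) (fun t ht => (hT t ht).1) (fun v => by positivity)
  refine h1.trans ?_
  have hd0 : (0 : ℝ) < d := by exact_mod_cast hd
  have h2 : ∑ v ∈ T.image Nat.totient, 1 / (v : ℝ) ≤
      ∑ e ∈ Finset.Icc 1 ⌊Y⌋₊, 1 / ((d : ℝ) * e) := by
    have h3 : ∑ v ∈ T.image Nat.totient, 1 / (v : ℝ) =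
        ∑ e ∈ (T.image Nat.totient).image (fun v => v / d), 1 / ((d : ℝ) * e) := by
      symm
      refine (Finset.sum_image (f := fun e : ℕ => 1 / ((d : ℝ) * e)) ?_).trans ?_
      · intro v hv v' hv' hvv
        obtain ⟨t, ht, rfl⟩ := Finset.mem_image.1 (Finset.mem_coe.1 hv)
        obtain ⟨t', ht', rfl⟩ := Finset.mem_image.1 (Finset.mem_coe.1 hv')
        have e1 := Nat.div_mul_cancel (hT t ht).2.2
        have e2 := Nat.div_mul_cancel (hT t' ht').2.2
        simp only at hvv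
        rw [← e1, ← e2, hvv]
      · refine Finset.sum_congr rfl fun v hv => ?_
        obtain ⟨t, ht, rfl⟩ := Finset.mem_image.1 hv
        obtain ⟨e, he⟩ := (hT t ht).2.2
        rw [he, Nat.mul_div_cancel_left _ hd]
        push_cast
        rfl
    rw [h3]
    refine Finset.sum_le_sum_of_subset_of_nonneg ?_ fun _ _ _ => by positivity
    intro e he
    obtain ⟨v, hv, rfl⟩ := Finset.mem_image.1 he
    obtain ⟨t, ht, rfl⟩ := Finset.mem_image.1 hv
    obtain ⟨hp, htY, hdt⟩ := hT t ht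
    rw [Finset.mem_Icc]
    have ht0 : 0 < t := hp.pos
    have hφ : 0 < t.totient := Nat.totient_pos.2 ht0
    refine ⟨Nat.div_pos (Nat.le_of_dvd hφ hdt) hd, ?_⟩
    refine (Nat.div_le_self _ _).trans ((Nat.totient_le t).trans ?_)
    exact Nat.le_floor htY
  have h4 : ∑ e ∈ Finset.Icc 1 ⌊Y⌋₊, 1 / ((d : ℝ) * e) = (1 / d) * ((harmonic ⌊Y⌋₊ : ℚ) : ℝ) := by
    rw [harmonic_eq_sum_Icc]
    push_cast
    rw [Finset.mul_sum]
    refine Finset.sum_congr rfl fun e _ => ?_
    rw [one_div, mul_inv, one_div]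
  have h5 := harmonic_floor_le_one_add_log Y hY
  unfold KK
  rw [h4] at h2
  calc 2 * ∑ v ∈ T.image Nat.totient, 1 / (v : ℝ)
      ≤ 2 * ((1 / d) * (1 + Real.log Y)) := by
        have : (1 / (d : ℝ)) * ((harmonic ⌊Y⌋₊ : ℚ) : ℝ) ≤ (1 / d) * (1 + Real.log Y) :=
          mul_le_mul_of_nonneg_left h5 (by positivity)
        linarith
    _ = 2 * (1 + Real.log Y) / d := by ring

end Pool.Agent.PHN
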