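import Pool.Agent.helper50.PHN.Spec

set_option autoImplicit false

namespace Pool.Agent.PHN

open Finset

theorem STP (hSTA : STA_stmt) (hSTC : STC_stmt) (hSTB : STB_stmt) (hALP : ALP_stmt) : STP_stmt := by
  intro D q w hq0 hI
  by_cases hq : q.Prime
  · obtain ⟨a1, a2, a3, a4⟩ := hSTA D q w hq hq0 hI
    refine ⟨D.nw q w, ?_⟩
    refine { nonneg := fun x => (a1 x).1, per := a2, inv := a3, one := ?_, supp := ?_, cls := ?_,
             bad := ?_ }
    · have h := a4 (fun _ => 1) (fun _ => rfl) (fun _ => rfl)
      simp only [mul_one] at h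
      have e1 : mu D.T (D.nw q w) = mu D.T (fun x => D.nw q w x) := rfl
      rw [e1, h]
      exact hI.one
    · intro x hx
      refine hI.supp x fun h0 => hx ?_
      obtain ⟨b1, b2⟩ := a1 x
      rw [h0, mul_zero] at b2
      exact le_antisymm b2 b1
    · intro n a hn hp
      exact hSTC D q w hq hq0 hI n a hn hp
    · intro p hp hp0 hpq
      rcases Nat.lt_succ_iff_lt_or_eq.1 hpq with h | h
      · obtain ⟨c1, _, c3, _, _⟩ := hALP D p hp hp0
        rw [a4 (D.iB p) (fun x => (c1 x).1) (fun x => c3 q hq h x)]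
        exact hI.bad p hp hp0 h
      · rw [h]
        exact hSTB D q w hq hq0 hI
  · refine ⟨w, ?_⟩
    refine { nonneg := hI.nonneg, per := hI.per, inv := fun p hp hpq => hI.inv p hp (by omega),
             one := hI.one, supp := hI.supp, cls := ?_, bad := ?_ }
    · intro n a hn hp
      refine hI.cls n a hn fun p hp' => ?_
      rcases Nat.lt_succ_iff_lt_or_eq.1 (hp p hp') with h | h
      · exact h
      · exact absurd (h ▸ Nat.prime_of_mem_primeFactors hp') hq
    · intro p hp hp0 hpq
      rcases Nat.lt_succ_iff_lt_or_eq.1 hpq with h | h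
      · exact hI.bad p hp hp0 h
      · exact absurd (h ▸ hp) hq

end Pool.Agent.PHN
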